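import Pool.Agent.PG.Proximal

set_option autoImplicit false

namespace Pool.Agent.Results.MP_5fffd4_al.CompressibleTorsion

/-- Let `Γ` be a group generated as a monoid by `f 0, ..., f (k-1)`, and let a subgroup `H` of `Γ`
act faithfully by homeomorphisms on a Hausdorff space `X`. Suppose that some element `x ≠ 1` of
finite order of `H` has compressible support: every nonempty open set `U` contains `h (supp x)` for
some `h` in `H`. Then for some `c > 0` and all large `n` the group `Γ` has an element of finite
order that is a product of at most `n` letters and has order at least `exp (c n)`. -/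
theorem result {Γ : Type*} [Group Γ] {k : ℕ} (f : Fin k → Γ)
    (hgen : Submonoid.closure (Set.range f) = ⊤) (H : Subgroup Γ)
    {X : Type*} [TopologicalSpace X] [T2Space X] (φ : H →* Equiv.Perm X)
    (hφ : Function.Injective φ) (hcont : ∀ h : H, Continuous (φ h))
    (x : H) (hx : IsOfFinOrder x) (hx1 : x ≠ 1)
    (hcomp : ∀ U : Set X, IsOpen U → U.Nonempty → ∃ h : H, ∀ z, φ x z ≠ z → φ h z ∈ U) :
    ∃ c : ℝ, 0 < c ∧ ∃ n0 : ℕ, ∀ n : ℕ, n0 ≤ n → ∃ w : List (Fin k), w.length ≤ n ∧
      0 < orderOf (w.map f).prod ∧ Real.exp (c * n) ≤ (orderOf (w.map f).prod : ℝ) := by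
  obtain ⟨g, C, p, h1, h2⟩ := Pool.Agent.PG.proximal_nest φ hφ hcont x hx hx1 hcomp
  exact Pool.Agent.PG.nest_growth f hgen H φ hφ x g hx C p h1 h2

end Pool.Agent.Results.MP_5fffd4_al.CompressibleTorsion
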