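import Pool.Agent.PG.Main

set_option autoImplicit false

namespace Pool.Agent.Results.MP_5fffd4_al.FinitaryByAbelian

/-- Let `Γ` be a group generated as a monoid by `f 0, ..., f (k-1)`, and let `H` be a subgroup of
`Γ` generated by `t 0, ..., t (m-1)`. Suppose that `H` acts faithfully by permutations on a set `X`
so that any two of the generators `t i`, `t j` commute at all but finitely many points of `X`, and
that the orders of the elements of finite order of `H` are not bounded. Then for some `c > 0` and
all large `n` the group `Γ` has an element of finite order that is a product of at most `n` letters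
and has order at least `exp (c * sqrt (n log n))`. -/
theorem result {Γ : Type*} [Group Γ] {k : ℕ} (f : Fin k → Γ)
    (hgen : Submonoid.closure (Set.range f) = ⊤)
    (H : Subgroup Γ) {m : ℕ} (t : Fin m → H) (ht : Subgroup.closure (Set.range t) = ⊤)
    {X : Type*} (φ : H →* Equiv.Perm X) (hφ : Function.Injective φ)
    (hcom : ∀ i j, {x : X | φ (t i) (φ (t j) x) ≠ φ (t j) (φ (t i) x)}.Finite)
    (hunb : ∀ M : ℕ, ∃ g : H, 0 < orderOf g ∧ M < orderOf g) :
    ∃ c : ℝ, 0 < c ∧ ∃ n0 : ℕ, ∀ n : ℕ, n0 ≤ n → ∃ w : List (Fin k), w.length ≤ n ∧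
      0 < orderOf (w.map f).prod ∧
      Real.exp (c * Real.sqrt (n * Real.log n)) ≤ (orderOf (w.map f).prod : ℝ) :=
  Pool.Agent.PG.main_sharp f hgen H t ht φ hφ hcom hunb

end Pool.Agent.Results.MP_5fffd4_al.FinitaryByAbelian
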