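import Pool.Agent.PG.ShuffleMain

set_option autoImplicit false

namespace Pool.Agent.Results.MP_5fffd4_al.ShufflerSubgroups

/-- Let `Γ` be a group generated as a monoid by `f 0, ..., f (k-1)`, and let `H` be a subgroup of
`Γ` generated by `t 0, ..., t (m-1)`. Let `Q` be a group whose torsion subgroups are finite of
bounded order, acting on a set `X` so that every element of infinite order of `Q` has only finitely
many points in finite orbits (for example `X = Q` with left multiplication). Suppose that `H` acts
faithfully by permutations on `X` and that there is a homomorphism `π` from `H` to `Q` such that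
each `h` in `H` acts as `π h` on all but finitely many points. If the orders of the elements of
finite order of `H` are not bounded, then for some `c > 0` and all large `n` the group `Γ` has an
element of finite order that is a product of at most `n` letters and has order at least
`exp (c * sqrt (n log n))`. -/
theorem result {Γ : Type*} [Group Γ] {k : ℕ} (f : Fin k → Γ)
    (hgen : Submonoid.closure (Set.range f) = ⊤)
    (H : Subgroup Γ) {m : ℕ} (t : Fin m → H) (ht : Subgroup.closure (Set.range t) = ⊤)
    {Q : Type*} [Group Q]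
    (hQ : ∃ B : ℕ, ∀ F : Subgroup Q, (∀ q ∈ F, IsOfFinOrder q) → Finite F ∧ Nat.card F ≤ B)
    {X : Type*} [MulAction Q X]
    (ha : ∀ q : Q, ¬ IsOfFinOrder q → {x : X | ∃ n : ℕ, 0 < n ∧ q ^ n • x = x}.Finite)
    (φ : H →* Equiv.Perm X) (hφ : Function.Injective φ) (π : H →* Q)
    (hπ : ∀ h : H, {x : X | φ h x ≠ π h • x}.Finite)
    (hunb : ∀ M : ℕ, ∃ g : H, 0 < orderOf g ∧ M < orderOf g) :
    ∃ c : ℝ, 0 < c ∧ ∃ n0 : ℕ, ∀ n : ℕ, n0 ≤ n → ∃ w : List (Fin k), w.length ≤ n ∧
      0 < orderOf (w.map f).prod ∧
      Real.exp (c * Real.sqrt (n * Real.log n)) ≤ (orderOf (w.map f).prod : ℝ) :=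
  Pool.Agent.PG.main_shuffle f hgen H t ht hQ ha φ hφ π hπ hunb

end Pool.Agent.Results.MP_5fffd4_al.ShufflerSubgroups
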