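import Pool.Agent.H.MP_5fffd4_al.Subgrp

set_option autoImplicit false

namespace Pool.Agent.Results.MP_5fffd4_al.TorsionSubgroupsFinite

/-- Every finitely generated torsion subgroup of a co-context-free group is finite. In particular a
finitely generated co-context-free group all of whose elements have finite order is finite. -/
theorem result {G : Type*} [Group G] {k : ℕ} (f : Fin k → G)
    (hgen : Submonoid.closure (Set.range f) = ⊤)
    (hcf : Language.IsContextFree
      ({w : List (Fin k) | (w.map f).prod ≠ 1} : Language (Fin k)))
    (H : Subgroup G) (hfg : H.FG) (htor : ∀ x ∈ H, IsOfFinOrder x) : Finite H :=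
  Pool.Agent.H.MP_5fffd4_al.torsion_subgroup_finite f hgen hcf H hfg htor

end Pool.Agent.Results.MP_5fffd4_al.TorsionSubgroupsFinite
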